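import Pool.Agent.Helper56.LD.Goals
import Pool.Agent.Helper56.LD.Basics

/-!
Packet LD-SP2 of MP_0152c0_gt: `StmtCut` (from `StmtCompact`).
-/

set_option autoImplicit false

namespace Pool.Agent.Helper75.LD

open Set Filter Topology
open Pool.Agent.Helper56.LD

/-- sets defined by vanishing of some label weights are closed. -/
theorem isClosed_wt_zero {L Ω : Type} (P : ℕ → L → Prop) :
    IsClosed {z : Amb L Ω | ∀ (j : ℕ) (l : L), P j l → z.2.1 j l = 0} := by
  simp only [Set.setOf_forall]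
  refine isClosed_iInter fun j => isClosed_iInter fun l => isClosed_iInter fun _ => ?_
  exact isClosed_eq (by fun_prop) continuous_const

theorem isClosed_wt_ge {L Ω : Type} (w : ℝ) (j : ℕ) (l : L) :
    IsClosed {z : Amb L Ω | w ≤ z.2.1 j l} :=
  isClosed_le continuous_const (by fun_prop)

theorem stmtCut (hcpt : StmtCompact) : StmtCut := by
  intro L Ω _ _ _ _ _ _ lt E hE A hAM hAc hAp n e w heE hw hw1 hpA n1 w1 hw1' hlt hp1 y hy
  have hAcomp : IsCompact A := (hcpt L Ω lt E hE).of_isClosed_subset hAc hAM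
  -- the sets C_K
  let C : ℕ → Set (Amb L Ω) := fun K => A ∩ ({z | z.1 = hgt n w} ∩
    {z | ∀ (j : ℕ) (l : L), (n ≤ j ∧ j < K ∧ l ≠ e j) → z.2.1 j l = 0})
  have hCcl : ∀ K, IsClosed (C K) := fun K =>
    hAc.inter ((isClosed_eq continuous_fst continuous_const).inter (isClosed_wt_zero _))
  have hCanti : ∀ K K', K ≤ K' → C K' ⊆ C K := by
    intro K K' hKK' z hz
    exact ⟨hz.1, hz.2.1, fun j l h => hz.2.2 j l ⟨h.1, h.2.1.trans_le hKK', h.2.2⟩⟩
  have hex : ∃ K0, C K0 = ∅ := by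
    by_contra hcon
    push Not at hcon
    have hne : (⋂ i, C i).Nonempty := by
      refine IsCompact.nonempty_iInter_of_sequence_nonempty_isCompact_isClosed C
        (fun i => hCanti i (i + 1) (Nat.le_succ i)) (fun i => ?_)
        (hAcomp.of_isClosed_subset (hCcl 0) inter_subset_left) hCcl
      exact hcon i
    obtain ⟨z, hz⟩ := hne
    rw [mem_iInter] at hz
    have hzA : z ∈ A := (hz 0).1
    have hz1 : z.1 = hgt n w := (hz 0).2.1
    have hzl : ∀ (j : ℕ) (l : L), n ≤ j → l ≠ e j → z.2.1 j l = 0 := fun j l hj hl =>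
      (hz (j + 1)).2.2 j l ⟨hj, Nat.lt_succ_self j, hl⟩
    obtain ⟨m, e', v, he', hv, hv1, rfl, hmn, hee⟩ := exists_below (hAM hzA) hw hz1.ge hzl
    have hz1' : hgt m v = hgt n w := hz1
    obtain ⟨rfl, rfl⟩ := hgt_inj hv hv1 hw hw1 hz1'
    rw [pt_congr lt hee] at hzA
    exact hpA hzA
  obtain ⟨K0, hK0⟩ := hex
  -- for K ≥ K0, A is contained in T1
  have main : ∀ K, K0 ≤ K → ∀ z ∈ A, hgt n w ≤ z.1 ∧
      ∀ (j : ℕ) (l : L), (n ≤ j ∧ j < K ∧ l ≠ e j) → z.2.1 j l = 0 := by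
    intro K hK
    have hCK : C K = ∅ := by
      apply eq_empty_of_subset_empty
      rw [← hK0]
      exact hCanti _ _ hK
    let T1 : Set (Amb L Ω) := {z | hgt n w ≤ z.1} ∩
      {z | ∀ (j : ℕ) (l : L), (n ≤ j ∧ j < K ∧ l ≠ e j) → z.2.1 j l = 0}
    let I : Set (ℕ × L) := {p | n ≤ p.1 ∧ p.1 < K ∧ p.2 ≠ e p.1}
    let T2 : Set (Amb L Ω) := {z | z.1 ≤ hgt n w} ∪ ⋃ p ∈ I, {z | w ≤ z.2.1 p.1 p.2}
    have hI : I.Finite := by
      refine ((finite_Iio K).prod (finite_univ (α := L))).subset ?_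
      rintro ⟨j, l⟩ h
      exact ⟨h.2.1, mem_univ _⟩
    have hT1 : IsClosed T1 :=
      (isClosed_le continuous_const continuous_fst).inter (isClosed_wt_zero _)
    have hT2 : IsClosed T2 :=
      (isClosed_le continuous_fst continuous_const).union
        (hI.isClosed_biUnion fun p _ => isClosed_wt_ge w p.1 p.2)
    have hcov : A ⊆ T1 ∪ T2 := by
      intro z hz
      by_cases h1 : z.1 ≤ hgt n w
      · exact Or.inr (Or.inl h1)
      · push Not at h1
        by_cases h2 : ∀ (j : ℕ) (l : L), (n ≤ j ∧ j < K ∧ l ≠ e j) → z.2.1 j l = 0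
        · exact Or.inl ⟨h1.le, h2⟩
        · push Not at h2
          obtain ⟨j, l, hjl, hne⟩ := h2
          rcases wt_ge_of_hgt_le (hAM hz) hw hw1 h1.le hjl.1 l with h3 | h3
          · exact absurd h3 hne
          · refine Or.inr (Or.inr ?_)
            rw [mem_iUnion₂]
            exact ⟨(j, l), hjl, h3⟩
    have hA1 : (A ∩ T1).Nonempty := by
      refine ⟨pt lt n1 e w1, hp1, hlt.le, ?_⟩
      rintro j l ⟨_, _, hl⟩
      simp only [pt_wt]
      rw [if_neg (fun h => hl h.symm)]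
    have hnot : ¬ (A ∩ T2).Nonempty := by
      intro hA2
      obtain ⟨z, hzA, hz1, hz2⟩ := isPreconnected_closed_iff.1 hAp T1 T2 hT1 hT2 hcov hA1 hA2
      rcases hz2 with h | h
      · have : z ∈ C K := ⟨hzA, le_antisymm h hz1.1, hz1.2⟩
        rw [hCK] at this
        exact this
      · rw [mem_iUnion₂] at h
        obtain ⟨⟨j, l⟩, hjl, h3⟩ := h
        have h4 : z.2.1 j l = 0 := hz1.2 j l hjl
        have h5 : w ≤ z.2.1 j l := h3
        linarith
    intro z hz
    rcases hcov hz with h | h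
    · exact h
    · exact absurd ⟨z, hz, h⟩ hnot
  refine ⟨(main K0 le_rfl y hy).1, fun j l hj hl => ?_⟩
  exact (main (max K0 (j + 1)) (le_max_left _ _) y hy).2 j l
    ⟨hj, lt_of_lt_of_le (Nat.lt_succ_self j) (le_max_right _ _), hl⟩

end Pool.Agent.Helper75.LD
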