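import Pool.Agent.Helper56.LD.Goals

/-!
Packet LD-CO5+CO11+CO8 of MP_0152c0_gt: `StmtMainInv`, `StmtTail`, `StmtRoot`.
-/

set_option autoImplicit false

namespace Pool.Agent.Helper75.LD

open Pool.Agent.Helper56.LD

theorem isMain_or_isAux (l : Lab) : IsMain l ∨ IsAux l := by
  cases l with
  | inl t => exact Or.inl ⟨t, rfl⟩
  | inr q => exact Or.inr ⟨q, rfl⟩

theorem not_both {l : Lab} (h1 : IsMain l) (h2 : IsAux l) : False := by
  obtain ⟨t, ht⟩ := h1
  obtain ⟨q, hq⟩ := h2
  rw [ht] at hq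
  exact absurd hq (by simp)

theorem mainStep {e : ℕ → Lab} (he : e ∈ ES) (j : ℕ) (h : IsMain (e j)) : IsMain (e (j + 1)) := by
  obtain ⟨t, ht⟩ := h
  have h1 : Tr (j + 1) (e (j + 1)) (e j) := he j
  rcases isMain_or_isAux (e (j + 1)) with h2 | ⟨⟨κ, s⟩, hs⟩
  · exact h2
  · rw [hs, ht] at h1
    exact absurd h1 (by simp [Tr])

theorem mainUp {e : ℕ → Lab} (he : e ∈ ES) {i j : ℕ} (hij : i ≤ j) (h : IsMain (e i)) :
    IsMain (e j) := by
  induction hij with
  | refl => exact h
  | step _ ih => exact mainStep he _ ih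

theorem muMain {a : ℕ → Lab} (ha : a ∈ ES) {N : ℕ} (h : IsMain (a N)) (l : ℕ) :
    IsMain (mu N a l) := by
  have h1 : IsMain (a (max (16 * l + 4) N)) := mainUp ha (le_max_right _ _) h
  obtain ⟨t, ht⟩ := h1
  refine ⟨t - 1, ?_⟩
  unfold mu
  rw [ht]
  rfl

theorem stmtMainInv : StmtMainInv := by
  intro N a e e' ha hN hee hM
  have F1 : ∀ l, e l = mu N a l → e' l = mu N a l := by
    intro l hl
    have h1 : IsMain (e l) := by rw [hl]; exact muMain ha hN l
    rw [← hee l (Or.inl h1)]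
    exact hl
  have FQ : ∀ i, QQ i N a e → QQ i N a e' := by
    intro i hQ l hl hm
    have h1 := hee l (Or.inr hm)
    rw [← h1] at hm ⊢
    exact hQ l hl hm
  have FA : ∀ x, IsAux (e x) → IsAux (e' x) := by
    intro x hx
    rcases isMain_or_isAux (e' x) with h | h
    · have h1 := hee x (Or.inr h)
      rw [← h1] at h
      exact (not_both h hx).elim
    · exact h
  have FM : ∀ x, IsMain (e x) → IsMain (e' x) := by
    intro x hx
    rw [← hee x (Or.inl hx)]
    exact hx
  refine ⟨fun h4 l => F1 l (hM.1 h4 l), fun i h1 h2 => ?_⟩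
  obtain ⟨hT, hrest⟩ := hM.2 i h1 h2
  refine ⟨fun l hl => F1 l (hT l hl), ?_⟩
  rcases hrest with ⟨hle, hq⟩ | ⟨hlt, hq, hm⟩
  · refine Or.inl ⟨hle, ?_⟩
    rcases hq with hq | hq | hq
    · exact Or.inl (FQ i hq)
    · exact Or.inr (Or.inl hq)
    · exact Or.inr (Or.inr (FA _ hq))
  · exact Or.inr ⟨hlt, FQ i hq, FM _ hm⟩

/-- locating `N` between consecutive powers of `4`. -/
theorem exists_level {N : ℕ} (hN : 4 < N) : ∃ i : ℕ, 4 ^ (i + 1) < N ∧ N ≤ 4 ^ (i + 2) := by
  have hex : ∃ i : ℕ, N ≤ 4 ^ (i + 2) := by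
    refine ⟨N, ?_⟩
    have h1 : N < 4 ^ N := Nat.lt_pow_self (by norm_num)
    have h2 : 4 ^ N ≤ 4 ^ (N + 2) := Nat.pow_le_pow_right (by norm_num) (by omega)
    omega
  classical
  refine ⟨Nat.find hex, ?_, Nat.find_spec hex⟩
  rcases Nat.eq_zero_or_pos (Nat.find hex) with h | h
  · rw [h]; simpa using hN
  · have h1 := Nat.find_min hex (m := Nat.find hex - 1) (by omega)
    have h2 : Nat.find hex - 1 + 2 = Nat.find hex + 1 := by omega
    rw [h2] at h1
    omega

theorem stmtTail : StmtTail := by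
  intro N
  rcases Nat.lt_or_ge 4 N with hN | hN
  · obtain ⟨i, h1, h2⟩ := exists_level hN
    refine ⟨4 ^ i, ?_, ?_, fun h => by omega⟩
    · intro a e ha haN hM j hj
      rw [(hM.2 i h1 h2).1 j hj]
      exact muMain ha haN j
    · have : 4 ^ (i + 1) = 4 * 4 ^ i := by ring
      omega
  · refine ⟨0, ?_, by omega, fun _ => rfl⟩
    intro a e ha haN hM j _
    rw [hM.1 hN j]
    exact muMain ha haN j

theorem stmtRoot : StmtRoot := by
  intro n κ τ a e ha he hN hM
  obtain ⟨k, hk, h4k, hk0⟩ := stmtTail (n + 1)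
  have hmain := hk a e ha hN hM
  by_cases h0 : IsMain (e 0)
  · exact Or.inl h0
  · rcases isMain_or_isAux (e 0) with h | ⟨⟨κ', t⟩, ht⟩
    · exact absurd h h0
    · by_cases hκ : κ' = κ
      · refine Or.inr (Or.inr ?_)
        classical
        have hex : ∃ ν, IsMain (e ν) := ⟨k, hmain k le_rfl⟩
        have hν : IsMain (e (Nat.find hex)) := Nat.find_spec hex
        have hνk : Nat.find hex ≤ k := Nat.find_min' hex (hmain k le_rfl)
        have hν0 : 0 < Nat.find hex := by
          rcases Nat.eq_zero_or_pos (Nat.find hex) with h | h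
          · rw [h] at hν; exact absurd hν h0
          · exact h
        have hnu : IsNu e (Nat.find hex) := by
          refine ⟨hν, fun j hj => ?_⟩
          rcases isMain_or_isAux (e j) with h | h
          · exact absurd h (Nat.find_min hex hj)
          · exact h
        generalize Nat.find hex = ν at hν hνk hν0 hnu
        have hex2 : ∃ k0 : ℕ, ν ≤ 2 ^ k0 := ⟨ν, (Nat.lt_pow_self (by norm_num)).le⟩
        have hK1 : ν ≤ 2 ^ (Nat.find hex2) := Nat.find_spec hex2
        have hK : IsK ν (Nat.find hex2) := by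
          refine ⟨hK1, fun k' hk' => ?_⟩
          have := Nat.find_min hex2 hk'
          omega
        refine ⟨ν, Nat.find hex2, hnu, hK, Or.inl ?_⟩
        generalize Nat.find hex2 = k0 at hK hK1
        rcases Nat.eq_zero_or_pos k0 with h | h
        · rw [h]
          norm_num
          omega
        · obtain ⟨m, rfl⟩ : ∃ m, k0 = m + 1 := ⟨k0 - 1, by omega⟩
          have h1 := hK.2 m (by omega)
          have h2 : 2 ^ (m + 1 + 1) = 4 * 2 ^ m := by ring
          omega
      · refine Or.inr (Or.inl ⟨t, ?_⟩)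
        rw [ht]
        have : κ' = !κ := by
          cases κ <;> cases κ' <;> simp_all
        rw [this]

end Pool.Agent.Helper75.LD
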